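import Pool.Agent.Helper73.LF.Goals

/-!
# Linear forms in algebraic numbers (MP_c307ca_nt): the sum of the products
-/

set_option autoImplicit false

open Finset

namespace Pool.Agent.Helper2.LF

open Pool.Agent.Helper98.Lang Pool.Agent.Helper73.LF

lemma one_factor (H J : ℕ) (hJ : 2 * H + 1 ≤ 2 ^ J) (z : ℝ) (h1 : z ≤ 1) :
    min (2 * (H : ℝ) + 1) (1 / z) ≤
      ∑ j ∈ range (J + 1), (if z ≤ (1 / 2 : ℝ) ^ j then (2 : ℝ) ^ (j + 1) else 0) := by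
  have hnn : ∀ j ∈ range (J + 1), (0 : ℝ) ≤ (if z ≤ (1 / 2 : ℝ) ^ j then (2 : ℝ) ^ (j + 1) else 0) := by
    intro j _
    split_ifs
    · positivity
    · exact le_refl _
  by_cases hz : z ≤ (1 / 2 : ℝ) ^ J
  · have h2 := Finset.single_le_sum hnn (Finset.mem_range.2 (Nat.lt_succ_self J))
    rw [if_pos hz] at h2
    refine (min_le_left _ _).trans (le_trans ?_ h2)
    have h3 : (2 * (H : ℝ) + 1) ≤ (2 : ℝ) ^ J := by exact_mod_cast hJ
    have h4 : (0 : ℝ) ≤ (2 : ℝ) ^ J := by positivity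
    rw [pow_succ]
    linarith
  · push Not at hz
    have hex : ∃ j, (1 / 2 : ℝ) ^ j < z := ⟨J, hz⟩
    classical
    have hf := Nat.find_spec hex
    have hle : Nat.find hex ≤ J := Nat.find_min' hex hz
    have hpos : 0 < Nat.find hex := by
      rcases Nat.eq_zero_or_pos (Nat.find hex) with h | h
      · rw [h, pow_zero] at hf
        linarith
      · exact h
    obtain ⟨j, hj⟩ : ∃ j, Nat.find hex = j + 1 := ⟨Nat.find hex - 1, by omega⟩
    have hmin : z ≤ (1 / 2 : ℝ) ^ j := by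
      have := Nat.find_min hex (m := j) (by omega)
      exact not_lt.1 this
    have h2 := Finset.single_le_sum hnn (Finset.mem_range.2 (show j < J + 1 by omega))
    rw [if_pos hmin] at h2
    refine (min_le_right _ _).trans (le_trans ?_ h2)
    rw [hj] at hf
    have hz0 : 0 < z := lt_trans (by positivity) hf
    rw [div_le_iff₀ hz0]
    have h5 : (2 : ℝ) ^ (j + 1) * (1 / 2 : ℝ) ^ (j + 1) = 1 := by
      rw [← mul_pow]; norm_num
    calc (1 : ℝ) = (2 : ℝ) ^ (j + 1) * (1 / 2 : ℝ) ^ (j + 1) := h5.symm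
      _ ≤ (2 : ℝ) ^ (j + 1) * z := by
        apply mul_le_mul_of_nonneg_left hf.le
        positivity

lemma logs (m : ℕ) (δ : ℝ) (hδ : 0 < δ) : ∃ C : ℝ, 0 < C ∧ ∀ H : ℕ, 1 ≤ H →
    (((Nat.log 2 (2 * H + 1) + 1 + 1 : ℕ) : ℝ)) ^ m ≤ C * (H : ℝ) ^ δ := by
  set ε : ℝ := δ / (m + 1) with hε
  have hm : (0 : ℝ) < (m : ℝ) + 1 := by positivity
  have hε0 : 0 < ε := div_pos hδ hm
  refine ⟨(6 + 2 / ε) ^ m, by positivity, ?_⟩
  intro H hH
  have hH1 : (1 : ℝ) ≤ (H : ℝ) := by exact_mod_cast hH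
  have hH0 : (0 : ℝ) < (H : ℝ) := by linarith
  have h1 : (2 : ℝ) ^ (Nat.log 2 (2 * H + 1)) ≤ 3 * (H : ℝ) := by
    have h2 : 2 ^ (Nat.log 2 (2 * H + 1)) ≤ 2 * H + 1 := Nat.pow_log_le_self 2 (by omega)
    have h3 : 2 ^ (Nat.log 2 (2 * H + 1)) ≤ 3 * H := by omega
    exact_mod_cast h3
  have h2 : ((Nat.log 2 (2 * H + 1) : ℕ) : ℝ) * Real.log 2 ≤ Real.log 3 + Real.log H := by
    have := Real.log_le_log (by positivity) h1
    rw [Real.log_pow, Real.log_mul (by norm_num) hH0.ne'] at this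
    exact this
  have hl2 : (1 / 2 : ℝ) ≤ Real.log 2 := by
    have := Real.log_two_gt_d9
    linarith
  have hl3 : Real.log 3 ≤ 2 := by
    have := Real.log_le_sub_one_of_pos (show (0 : ℝ) < 3 by norm_num)
    linarith
  have hlH : Real.log H ≤ (H : ℝ) ^ ε / ε := Real.log_le_rpow_div hH0.le hε0
  have hL0 : (0 : ℝ) ≤ ((Nat.log 2 (2 * H + 1) : ℕ) : ℝ) := Nat.cast_nonneg _
  have hHe : (1 : ℝ) ≤ (H : ℝ) ^ ε := Real.one_le_rpow hH1 hε0.le
  have h3 : ((Nat.log 2 (2 * H + 1) : ℕ) : ℝ) ≤ 4 + 2 * Real.log H := by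
    nlinarith
  have h4 : (((Nat.log 2 (2 * H + 1) + 1 + 1 : ℕ) : ℝ)) ≤ (6 + 2 / ε) * (H : ℝ) ^ ε := by
    push_cast
    have e1 : (6 + 2 / ε) * (H : ℝ) ^ ε = 6 * (H : ℝ) ^ ε + 2 * ((H : ℝ) ^ ε / ε) := by
      field_simp
    rw [e1]
    linarith
  calc (((Nat.log 2 (2 * H + 1) + 1 + 1 : ℕ) : ℝ)) ^ m ≤ ((6 + 2 / ε) * (H : ℝ) ^ ε) ^ m :=
        pow_le_pow_left₀ (Nat.cast_nonneg _) h4 m
    _ = (6 + 2 / ε) ^ m * ((H : ℝ) ^ ε) ^ m := mul_pow _ _ _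
    _ ≤ (6 + 2 / ε) ^ m * (H : ℝ) ^ δ := by
        apply mul_le_mul_of_nonneg_left _ (by positivity)
        rw [← Real.rpow_natCast, ← Real.rpow_mul hH0.le]
        apply Real.rpow_le_rpow_of_exponent_le hH1
        rw [hε, div_mul_eq_mul_div, div_le_iff₀ hm]
        nlinarith

theorem sum_of (h : GCnt) : GSum := by
  classical
  intro m x hx δ hδ
  obtain ⟨C1, hC1, hcnt⟩ := h m x hx δ hδ
  obtain ⟨C2, hC2, hlog⟩ := logs m δ hδ
  refine ⟨2 ^ m * C1 * C2, by positivity, ?_⟩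
  intro Y H hH
  set J : ℕ := Nat.log 2 (2 * H + 1) + 1 with hJdef
  have hJ : 2 * H + 1 ≤ 2 ^ J := (Nat.lt_pow_succ_log_self (by norm_num) _).le
  have hnd0 : ∀ z : ℝ, 0 ≤ nd z := fun z => abs_nonneg _
  have hnd1 : ∀ z : ℝ, nd z ≤ 1 := fun z => by
    have : nd z ≤ 1 / 2 := abs_sub_round z
    linarith
  have hPr : ∀ y ∈ Icc 1 Y, Pr x H y ≤
      ∑ p ∈ Fintype.piFinset (fun _ : Fin m => range (J + 1)),
        ∏ i, (if nd (y * x i) ≤ (1 / 2 : ℝ) ^ (p i) then (2 : ℝ) ^ (p i + 1) else 0) := by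
    intro y _
    rw [← Finset.prod_univ_sum (fun _ : Fin m => range (J + 1))
      (fun i j => if nd (y * x i) ≤ (1 / 2 : ℝ) ^ j then (2 : ℝ) ^ (j + 1) else 0)]
    unfold Pr
    apply Finset.prod_le_prod
    · intro i _
      apply le_min
      · positivity
      · exact div_nonneg zero_le_one (hnd0 _)
    · intro i _
      exact one_factor H J hJ _ (hnd1 _)
  refine (Finset.sum_le_sum hPr).trans ?_
  rw [Finset.sum_comm]
  have hterm : ∀ p ∈ Fintype.piFinset (fun _ : Fin m => range (J + 1)),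
      ∑ y ∈ Icc 1 Y, ∏ i, (if nd (y * x i) ≤ (1 / 2 : ℝ) ^ (p i) then (2 : ℝ) ^ (p i + 1) else 0)
        ≤ 2 ^ m * C1 * (Y : ℝ) ^ (1 + δ) := by
    intro p _
    have e1 : ∀ y ∈ Icc 1 Y,
        ∏ i, (if nd (y * x i) ≤ (1 / 2 : ℝ) ^ (p i) then (2 : ℝ) ^ (p i + 1) else 0) =
        if (∀ i, nd (y * x i) ≤ (1 / 2 : ℝ) ^ (p i)) then ∏ i, (2 : ℝ) ^ (p i + 1) else 0 := by
      intro y _
      by_cases hy : ∀ i, nd (y * x i) ≤ (1 / 2 : ℝ) ^ (p i)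
      · rw [if_pos hy]
        apply Finset.prod_congr rfl
        intro i _
        rw [if_pos (hy i)]
      · rw [if_neg hy]
        push Not at hy
        obtain ⟨i, hi⟩ := hy
        apply Finset.prod_eq_zero (Finset.mem_univ i)
        rw [if_neg (not_le.2 hi)]
    rw [Finset.sum_congr rfl e1, ← Finset.sum_filter, Finset.sum_const, nsmul_eq_mul]
    have hc := hcnt Y (fun i => (1 / 2 : ℝ) ^ (p i)) (fun i => by positivity)
      (fun i => pow_le_one₀ (by norm_num) (by norm_num))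
      ((Icc 1 Y).filter (fun y : ℕ => ∀ i, nd (y * x i) ≤ (1 / 2 : ℝ) ^ (p i))) (by
        intro y hy
        rw [Finset.mem_filter, Finset.mem_Icc] at hy
        exact ⟨hy.1.1, hy.1.2, hy.2⟩)
    have hP0 : (0 : ℝ) ≤ ∏ i, (2 : ℝ) ^ (p i + 1) := Finset.prod_nonneg (fun i _ => by positivity)
    refine (mul_le_mul_of_nonneg_right hc hP0).trans (le_of_eq ?_)
    have e2 : (∏ i, (1 / 2 : ℝ) ^ (p i)) * (∏ i, (2 : ℝ) ^ (p i + 1)) = 2 ^ m := by
      rw [← Finset.prod_mul_distrib]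
      have : ∀ i ∈ (Finset.univ : Finset (Fin m)), (1 / 2 : ℝ) ^ (p i) * (2 : ℝ) ^ (p i + 1) = 2 := by
        intro i _
        rw [pow_succ, ← mul_assoc, ← mul_pow]
        norm_num
      rw [Finset.prod_congr rfl this, Finset.prod_const, Finset.card_univ, Fintype.card_fin]
    calc C1 * (Y : ℝ) ^ (1 + δ) * (∏ i, (1 / 2 : ℝ) ^ (p i)) * (∏ i, (2 : ℝ) ^ (p i + 1))
        = C1 * (Y : ℝ) ^ (1 + δ) * ((∏ i, (1 / 2 : ℝ) ^ (p i)) * (∏ i, (2 : ℝ) ^ (p i + 1))) := by ring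
      _ = 2 ^ m * C1 * (Y : ℝ) ^ (1 + δ) := by rw [e2]; ring
  refine (Finset.sum_le_sum hterm).trans ?_
  rw [Finset.sum_const, nsmul_eq_mul, Fintype.card_piFinset_const, Finset.card_range]
  have hl := hlog H hH
  have hY0 : (0 : ℝ) ≤ (Y : ℝ) ^ (1 + δ) := by positivity
  push_cast at hl ⊢
  have e3 : (J : ℝ) = (Nat.log 2 (2 * H + 1) : ℝ) + 1 := by
    rw [hJdef]; push_cast; ring
  rw [e3]
  calc ((Nat.log 2 (2 * H + 1) : ℝ) + 1 + 1) ^ m * (2 ^ m * C1 * (Y : ℝ) ^ (1 + δ))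
      ≤ (C2 * (H : ℝ) ^ δ) * (2 ^ m * C1 * (Y : ℝ) ^ (1 + δ)) :=
        mul_le_mul_of_nonneg_right hl (by positivity)
    _ = 2 ^ m * C1 * C2 * (Y : ℝ) ^ (1 + δ) * (H : ℝ) ^ δ := by ring

end Pool.Agent.Helper2.LF
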